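import Mathlib

set_option autoImplicit false

namespace Pool.Agent.H.MP_52f1b6_co

open Finset

variable {K β : Type} [DecidableEq K]

/-- apply a map to the right-hand part of a finite set. -/
def ap (φ : ℕ → ℕ) (A : Finset (K ⊕ ℕ)) : Finset (K ⊕ ℕ) := A.image (Sum.map id φ)

omit [DecidableEq K] in
theorem ext_lr {A B : Finset (K ⊕ ℕ)} (h1 : A.toLeft = B.toLeft) (h2 : A.toRight = B.toRight) :
    A = B := by
  rw [← toLeft_disjSum_toRight (u := A), ← toLeft_disjSum_toRight (u := B), h1, h2]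

theorem toLeft_ap (φ : ℕ → ℕ) (A : Finset (K ⊕ ℕ)) : (ap φ A).toLeft = A.toLeft := by
  ext x
  simp only [ap, mem_toLeft, mem_image]
  constructor
  · rintro ⟨y | y, hy, h⟩
    · simp only [Sum.map_inl, id, Sum.inl.injEq] at h; exact h ▸ hy
    · simp at h
  · intro h; exact ⟨_, h, rfl⟩

theorem toRight_ap (φ : ℕ → ℕ) (A : Finset (K ⊕ ℕ)) : (ap φ A).toRight = A.toRight.image φ := by
  ext x
  simp only [ap, mem_toRight, mem_image]
  constructor
  · rintro ⟨y | y, hy, h⟩
    · simp at h
    · simp only [Sum.map_inr, Sum.inr.injEq] at h; exact ⟨y, hy, h⟩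
  · rintro ⟨y, hy, rfl⟩; exact ⟨_, hy, rfl⟩

theorem ap_ap (φ ψ : ℕ → ℕ) (A : Finset (K ⊕ ℕ)) : ap φ (ap ψ A) = ap (φ ∘ ψ) A :=
  ext_lr (by simp only [toLeft_ap]) (by simp only [toRight_ap, image_image])

theorem ap_congr {φ ψ : ℕ → ℕ} {A : Finset (K ⊕ ℕ)} (h : ∀ z ∈ A.toRight, φ z = ψ z) :
    ap φ A = ap ψ A :=
  ext_lr (by simp only [toLeft_ap]) (by simp only [toRight_ap]; exact image_congr h)

theorem ap_id {φ : ℕ → ℕ} {A : Finset (K ⊕ ℕ)} (h : ∀ z ∈ A.toRight, φ z = z) : ap φ A = A := by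
  rw [ap_congr (ψ := id) h]
  exact ext_lr (toLeft_ap _ _) (by rw [toRight_ap, image_id])

theorem injOn_ap {φ : ℕ → ℕ} {A : Finset (K ⊕ ℕ)}
    (h : ∀ y ∈ A.toRight, ∀ z ∈ A.toRight, y < z → φ y < φ z) :
    Set.InjOn (Sum.map id φ : K ⊕ ℕ → K ⊕ ℕ) A := by
  rintro (x | x) hx (y | y) hy e
  · simpa using e
  · simp at e
  · simp at e
  · simp only [Sum.map_inr, Sum.inr.injEq] at e
    have hx' : x ∈ A.toRight := mem_toRight.mpr hx
    have hy' : y ∈ A.toRight := mem_toRight.mpr hy
    rcases lt_trichotomy x y with h1 | h1 | h1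
    · have := h x hx' y hy' h1; omega
    · rw [h1]
    · have := h y hy' x hx' h1; omega

theorem card_ap {φ : ℕ → ℕ} {A : Finset (K ⊕ ℕ)}
    (h : ∀ y ∈ A.toRight, ∀ z ∈ A.toRight, y < z → φ y < φ z) : (ap φ A).card = A.card :=
  card_image_of_injOn (injOn_ap h)

theorem sum_pc_image {γ δ : Type} [DecidableEq δ] (f : γ → δ) (L : Finset γ)
    (hf : Set.InjOn f L) (k : ℕ) (g : Finset δ → ℚ) :
    ∑ A ∈ (L.image f).powersetCard k, g A = ∑ A ∈ L.powersetCard k, g (A.image f) := by
  symm
  apply Finset.sum_nbij (fun A => A.image f)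
  · intro A hA
    have := mem_powersetCard.mp hA
    exact mem_powersetCard.mpr ⟨image_subset_image this.1, by
      rw [card_image_of_injOn (hf.mono this.1), this.2]⟩
  · intro A hA B hB e
    exact image_injOn_powerset_of_injOn hf
      (mem_powerset.mpr (mem_powersetCard.mp hA).1) (mem_powerset.mpr (mem_powersetCard.mp hB).1) e
  · intro A hA
    have := mem_powersetCard.mp hA
    obtain ⟨B, hB, rfl⟩ := subset_image_iff.mp this.1
    refine ⟨B, mem_powersetCard.mpr ⟨hB, ?_⟩, rfl⟩
    rw [← this.2, card_image_of_injOn (hf.mono hB)]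
  · intro _ _; rfl

/-- order invariance of the equality pattern. -/
def Inv (χ : Finset (K ⊕ ℕ) → β) (k N : ℕ) : Prop :=
  ∀ A A' : Finset (K ⊕ ℕ), A.card ≤ k → A'.card ≤ k → ∀ φ : ℕ → ℕ,
    (∀ y ∈ A.toRight ∪ A'.toRight, ∀ z ∈ A.toRight ∪ A'.toRight, y < z → φ y < φ z) →
    (∀ z ∈ A.toRight ∪ A'.toRight, z < N ∧ φ z < N) →
    (χ A = χ A' ↔ χ (ap φ A) = χ (ap φ A'))

/-- separation of colour schemes by linear functionals. -/
def Sep (χ : Finset (K ⊕ ℕ) → β) (k l N : ℕ) : Prop :=
  ∀ L0 : Finset (K ⊕ ℕ), L0.card = l → (∀ z ∈ L0.toRight, z < N) → ∃ h : β → ℚ,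
    (∑ A ∈ L0.powersetCard k, h (χ A) = 1) ∧
    ∀ L : Finset (K ⊕ ℕ), L.card = l → (∀ z ∈ L.toRight, z < N) →
      (∑ A ∈ L.powersetCard k, h (χ A) = 0 ∨
        ∀ A ∈ L0.powersetCard k, ∃ A' ∈ L.powersetCard k, χ A' = χ A)

def up (x : ℕ) : ℕ → ℕ := fun z => if z = x then x + 1 else z

def Lat (N : ℕ) (A : Finset (K ⊕ ℕ)) : Prop := ∀ z ∈ A.toRight, z % 4 = 0 ∧ z + 3 < N

theorem transfer {χ : Finset (K ⊕ ℕ) → β} {k N : ℕ} (hI : Inv χ k N) {A : Finset (K ⊕ ℕ)}
    (hA : Lat N A) (hc : A.card ≤ k) {x : ℕ} (hx : x ∈ A.toRight) (ρ : ℕ → ℕ) (y' : ℕ)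
    (hρ : ∀ y ∈ A.toRight, ∀ z ∈ A.toRight, y < z → ρ y < ρ z)
    (hρN : ∀ z ∈ A.toRight, ρ z < N) (hy : ρ x < y') (hyN : y' < N)
    (hy2 : ∀ z ∈ A.toRight, x < z → y' < ρ z) :
    χ (ap (up x) A) = χ A ↔ χ (ap (fun z => if z = x then y' else ρ z) A) = χ (ap ρ A) := by
  let φ : ℕ → ℕ := fun z => if z = x + 1 then y' else ρ z
  have hx4 := hA x hx
  have hmem : ∀ z ∈ (ap (up x) A).toRight ∪ A.toRight, z ∈ A.toRight ∨ z = x + 1 := by
    intro z hz
    rcases mem_union.mp hz with h | h
    · rw [toRight_ap] at h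
      obtain ⟨w, hw, rfl⟩ := mem_image.mp h
      unfold up
      split_ifs
      · exact Or.inr rfl
      · exact Or.inl hw
    · exact Or.inl h
  have hφ : ∀ z ∈ A.toRight, φ z = ρ z := by
    intro z hz
    have := hA z hz
    exact if_neg (by omega)
  have hφ1 : φ (x + 1) = y' := if_pos rfl
  have h1 := hI (ap (up x) A) A (card_image_le.trans hc) hc φ (by
      intro y hy0 z hz0 hyz
      rcases hmem y hy0 with h1 | h1 <;> rcases hmem z hz0 with h2 | h2
      · rw [hφ y h1, hφ z h2]; exact hρ y h1 z h2 hyz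
      · rw [hφ y h1, h2, hφ1]
        rcases Nat.lt_succ_iff_lt_or_eq.mp (h2 ▸ hyz) with h3 | h3
        · exact (hρ y h1 x hx h3).trans hy
        · rw [h3]; exact hy
      · rw [h1, hφ1, hφ z h2]; exact hy2 z h2 (by omega)
      · omega) (by
      intro z hz0
      rcases hmem z hz0 with h1 | h1
      · rw [hφ z h1]; exact ⟨by have := hA z h1; omega, hρN z h1⟩
      · rw [h1, hφ1]; exact ⟨by omega, hyN⟩)
  rw [h1, ap_ap, ap_congr hφ, ap_congr (φ := φ ∘ up x) (ψ := fun z => if z = x then y' else ρ z)]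
  intro z hz
  by_cases e : z = x
  · simp only [Function.comp, up, if_pos e]; exact hφ1
  · simp only [Function.comp, up, if_neg e]; exact hφ z hz

open Classical in
/-- essential points. -/
noncomputable def ess (χ : Finset (K ⊕ ℕ) → β) (A : Finset (K ⊕ ℕ)) : Finset ℕ :=
  A.toRight.filter (fun x => χ (ap (up x) A) ≠ χ A)

theorem mem_ess {χ : Finset (K ⊕ ℕ) → β} {A : Finset (K ⊕ ℕ)} {x : ℕ} :
    x ∈ ess χ A ↔ x ∈ A.toRight ∧ χ (ap (up x) A) ≠ χ A := by
  simp only [ess, mem_filter]

theorem ess_map {χ : Finset (K ⊕ ℕ) → β} {k N : ℕ} (hI : Inv χ k N) {A : Finset (K ⊕ ℕ)}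
    (hA : Lat N A) (hc : A.card ≤ k) (ρ : ℕ → ℕ)
    (hρ : ∀ y ∈ A.toRight, ∀ z ∈ A.toRight, y < z → ρ y < ρ z)
    (hL : Lat N (ap ρ A)) {x : ℕ} (hx : x ∈ ess χ A) : ρ x ∈ ess χ (ap ρ A) := by
  have hx' := mem_ess.mp hx
  have hL' : ∀ z ∈ A.toRight, ρ z % 4 = 0 ∧ ρ z + 3 < N := fun z hz =>
    hL _ (by rw [toRight_ap]; exact mem_image_of_mem _ hz)
  refine mem_ess.mpr ⟨by rw [toRight_ap]; exact mem_image_of_mem _ hx'.1, ?_⟩
  intro e
  apply hx'.2
  rw [transfer hI hA hc hx'.1 ρ (ρ x + 1) hρ (fun z hz => by have := hL' z hz; omega) (by omega)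
    (by have := hL' x hx'.1; omega) (fun z hz hxz => by
      have h1 := hL' z hz
      have h2 := hL' x hx'.1
      have h3 := hρ x hx'.1 z hz hxz
      omega), ← e, ap_ap]
  congr 1
  apply ap_congr
  intro z hz
  by_cases e2 : z = x
  · simp only [Function.comp, up, e2, if_true]
  · have : ρ z ≠ ρ x := by
      rcases lt_or_gt_of_ne e2 with h | h
      · exact (hρ z hz x hx'.1 h).ne
      · exact (hρ x hx'.1 z hz h).ne'
    simp only [Function.comp, up, if_neg e2, if_neg this]

def sh (E : Finset ℕ) : ℕ → ℕ := fun z => if z ∈ E then z + 2 else z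

theorem cube {χ : Finset (K ⊕ ℕ) → β} {k l N : ℕ} (hI : Inv χ k N) (hS : Sep χ k l N)
    (L : Finset (K ⊕ ℕ)) (hL : Lat N L) (hc : L.card = l) (P : Finset ℕ)
    (hP : ∀ p ∈ P, ∃ A ∈ L.powersetCard k, p ∈ ess χ A)
    (hQ : ∀ A ∈ L.powersetCard k, ∃ p ∈ P, p ∉ ess χ A) : False := by
  obtain ⟨h, h1, h2⟩ := hS L hc (fun z hz => by have := hL z hz; omega)
  have hmono : ∀ E : Finset ℕ, ∀ y ∈ L.toRight, ∀ z ∈ L.toRight, y < z → sh E y < sh E z := by
    intro E y hy z hz hyz
    have := hL y hy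
    have := hL z hz
    unfold sh
    split_ifs <;> omega
  have hzero : ∀ E ∈ P.powerset, E ≠ ∅ → ∑ A ∈ (ap (sh E) L).powersetCard k, h (χ A) = 0 := by
    intro E hE hne
    obtain ⟨p, hp⟩ := nonempty_iff_ne_empty.mpr hne
    have hmemE : ∀ z ∈ (ap (sh E) L).toRight, z % 2 = 0 ∧ z + 1 < N ∧ z ≠ p := by
      intro z hz
      rw [toRight_ap] at hz
      obtain ⟨w, hw, rfl⟩ := mem_image.mp hz
      have h3 := hL w hw
      obtain ⟨A, hA, hpA⟩ := hP p (mem_powerset.mp hE hp)
      have h4 := hL p (toRight_subset_toRight (mem_powersetCard.mp hA).1 (mem_ess.mp hpA).1)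
      unfold sh
      split_ifs with h5
      · omega
      · refine ⟨by omega, by omega, ?_⟩
        rintro rfl
        exact h5 hp
    rcases h2 (ap (sh E) L) (by rw [card_ap (hmono E), hc])
      (fun z hz => by have := hmemE z hz; omega) with h3 | h3
    · exact h3
    · exfalso
      obtain ⟨A, hA, hpA⟩ := hP p (mem_powerset.mp hE hp)
      obtain ⟨A', hA', e⟩ := h3 A hA
      have hA1 := mem_powersetCard.mp hA
      have hA1' := mem_powersetCard.mp hA'
      have hev : ∀ z ∈ A'.toRight ∪ A.toRight, z % 2 = 0 ∧ z + 1 < N := by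
        intro z hz
        rcases mem_union.mp hz with h4 | h4
        · have := hmemE z (toRight_subset_toRight hA1'.1 h4); omega
        · have := hL z (toRight_subset_toRight hA1.1 h4); omega
      have h4 := (hI A' A hA1'.2.le hA1.2.le (up p) (by
        intro y hy z hz hyz
        have := hev y hy
        have := hev z hz
        unfold up
        split_ifs <;> omega) (by
        intro z hz
        have := hev z hz
        unfold up
        split_ifs <;> omega)).mp e
      rw [ap_id (φ := up p) (A := A') (fun z hz => if_neg (hmemE z (toRight_subset_toRight hA1'.1 hz)).2.2)]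
        at h4
      exact (mem_ess.mp hpA).2 (h4.symm.trans e)
  have hsum : ∑ E ∈ P.powerset, (-1 : ℚ) ^ E.card *
      ∑ A ∈ (ap (sh E) L).powersetCard k, h (χ A) = 1 := by
    rw [Finset.sum_eq_single ∅]
    · rw [ap_id (φ := sh ∅) (A := L) (fun z _ => if_neg (notMem_empty z)), h1]; simp
    · intro E hE hne; rw [hzero E hE hne, mul_zero]
    · intro h3; exact absurd (empty_mem_powerset P) h3
  have hsum2 : ∀ E ∈ P.powerset, (-1 : ℚ) ^ E.card *
      ∑ A ∈ (ap (sh E) L).powersetCard k, h (χ A) =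
      ∑ A ∈ L.powersetCard k, (-1 : ℚ) ^ E.card * h (χ (ap (sh E) A)) := by
    intro E _
    rw [← mul_sum]
    congr 1
    exact sum_pc_image _ L (injOn_ap (hmono E)) k (fun A => h (χ A))
  rw [sum_congr rfl hsum2, sum_comm, sum_eq_zero] at hsum
  · exact zero_ne_one hsum
  intro A hA
  have hA1 := mem_powersetCard.mp hA
  have hAL : Lat N A := fun z hz => hL z (toRight_subset_toRight hA1.1 hz)
  obtain ⟨p, hp, hpA⟩ := hQ A hA
  rw [← insert_erase hp, sum_powerset_insert (notMem_erase p P), ← sum_add_distrib]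
  apply sum_eq_zero
  intro E hE
  have hpE : p ∉ E := fun h3 => notMem_erase p P (mem_powerset.mp hE h3)
  have e : χ (ap (sh (insert p E)) A) = χ (ap (sh E) A) := by
    by_cases hpA2 : p ∈ A.toRight
    · have h3 : χ (ap (up p) A) = χ A := by
        by_contra h4
        exact hpA (mem_ess.mpr ⟨hpA2, h4⟩)
      have h5 := hAL p hpA2
      rw [transfer hI hAL hA1.2.le hpA2 (sh E) (p + 2)
        (fun y hy z hz => hmono E y (toRight_subset_toRight hA1.1 hy) z
          (toRight_subset_toRight hA1.1 hz))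
        (fun z hz => by have := hAL z hz; unfold sh; split_ifs <;> omega)
        (by unfold sh; rw [if_neg hpE]; omega) (by omega)
        (fun z hz hpz => by have := hAL z hz; unfold sh; split_ifs <;> omega)] at h3
      rw [← h3]
      congr 1
      apply ap_congr
      intro z _
      by_cases e2 : z = p
      · simp only [sh, e2, mem_insert_self, if_true]
      · simp only [sh, mem_insert, e2, false_or, if_false]
    · congr 1
      apply ap_congr
      intro z hz
      have e2 : z ≠ p := fun e => hpA2 (e ▸ hz)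
      simp only [sh, mem_insert, e2, false_or]
  rw [e, card_insert_of_notMem hpE]
  ring

theorem step {χ : Finset (K ⊕ ℕ) → β} {k l N : ℕ} (hI : Inv χ k N) (hS : Sep χ k l N)
    (hkl : k < l) (hN : 8 * k + 4 * l + 12 ≤ N) (t : ℕ)
    (ht : ∀ A : Finset (K ⊕ ℕ), Lat N A → A.card = k → (ess χ A).card ≤ t + 1) :
    ∀ A : Finset (K ⊕ ℕ), Lat N A → A.card = k → (ess χ A).card ≤ t := by
  intro A hA hc
  by_contra hcon
  let ρ : ℕ → ℕ := fun z => 8 * (A.toRight.filter (· < z)).card
  have hρ : ∀ y ∈ A.toRight, ∀ z ∈ A.toRight, y < z → ρ y < ρ z := by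
    intro y hy z _ hyz
    have : (A.toRight.filter (· < y)).card < (A.toRight.filter (· < z)).card := by
      apply card_lt_card
      rw [ssubset_iff_of_subset (fun w hw => by
        have := mem_filter.mp hw
        exact mem_filter.mpr ⟨this.1, this.2.trans hyz⟩)]
      exact ⟨y, mem_filter.mpr ⟨hy, hyz⟩, fun h => lt_irrefl _ (mem_filter.mp h).2⟩
    show 8 * _ < 8 * _
    omega
  let A0 := ap ρ A
  have hA0 : ∀ z ∈ A0.toRight, z % 8 = 0 ∧ z ≤ 8 * k := by
    intro z hz
    rw [toRight_ap] at hz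
    obtain ⟨w, _, rfl⟩ := mem_image.mp hz
    have h1 : (A.toRight.filter (· < w)).card ≤ k :=
      (card_filter_le _ _).trans (card_toRight_le.trans hc.le)
    show (8 * _) % 8 = 0 ∧ 8 * _ ≤ 8 * k
    omega
  have hL0 : Lat N A0 := fun z hz => by have := hA0 z hz; omega
  have hc0 : A0.card = k := by rw [card_ap hρ, hc]
  have he0 : t + 1 ≤ (ess χ A0).card := by
    refine le_trans (by omega) (card_le_card_of_injOn ρ (s := ess χ A) ?_ ?_)
    · intro x hx
      exact ess_map hI hA hc.le ρ hρ hL0 hx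
    · intro x hx y hy e
      have hx' := (mem_ess.mp hx).1
      have hy' := (mem_ess.mp hy).1
      rcases lt_trichotomy x y with h1 | h1 | h1
      · exact absurd e (hρ x hx' y hy' h1).ne
      · exact h1
      · exact absurd e (hρ y hy' x hx' h1).ne'
  obtain ⟨x, hx⟩ : (ess χ A0).Nonempty := card_pos.mp (by omega)
  have hx0 := (mem_ess.mp hx).1
  have hx8 := hA0 x hx0
  let σ : ℕ → ℕ := fun z => if z = x then x + 4 else z
  have hσ : ∀ y ∈ A0.toRight, ∀ z ∈ A0.toRight, y < z → σ y < σ z := by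
    intro y hy z hz hyz
    have := hA0 y hy
    have := hA0 z hz
    simp only [σ]
    split_ifs <;> omega
  have hsub1 : ap σ A0 ⊆ insert (Sum.inr (x + 4)) A0 := by
    intro v hv
    obtain ⟨w | w, hw, rfl⟩ := mem_image.mp hv
    · exact mem_insert_of_mem hw
    · simp only [Sum.map_inr, σ]
      split_ifs
      · exact mem_insert_self _ _
      · exact mem_insert_of_mem hw
  let Big : Finset (K ⊕ ℕ) := A0 ∪ (range (2 * k + l + 2)).image (fun i => Sum.inr (4 * i))
  have hBig : Lat N Big := by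
    intro z hz
    rcases mem_union.mp (mem_toRight.mp hz) with h | h
    · exact hL0 z (mem_toRight.mpr h)
    · obtain ⟨i, hi, e⟩ := mem_image.mp h
      have := mem_range.mp hi
      simp only [Sum.inr.injEq] at e
      omega
  have hBc : l ≤ Big.card := by
    refine le_trans ?_ (card_le_card subset_union_right)
    rw [card_image_of_injective _ (fun i j e => by simp only [Sum.inr.injEq] at e; omega),
      card_range]
    omega
  obtain ⟨L, hL1, hL2, hLc⟩ := exists_subsuperset_card_eq (n := l)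
    (s := insert (Sum.inr (x + 4)) A0) (t := Big)
    (insert_subset (mem_union_right _ (mem_image.mpr ⟨x / 4 + 1, mem_range.mpr (by omega),
      by congr 1; omega⟩)) subset_union_left)
    ((card_insert_le _ _).trans (by omega)) hBc
  have hL : Lat N L := fun z hz => hBig z (toRight_subset_toRight hL2 hz)
  have hx1 : x + 4 ∈ ess χ (ap σ A0) := by
    have := ess_map hI hL0 hc0.le σ hσ
      (fun z hz => hL z (toRight_subset_toRight (hsub1.trans hL1) hz)) hx
    simpa only [σ, if_true] using this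
  have hnot : x + 4 ∉ ess χ A0 := fun h => by
    have := hA0 _ (mem_ess.mp h).1
    omega
  apply cube hI hS L hL hLc (insert (x + 4) (ess χ A0))
  · intro p hp
    rcases mem_insert.mp hp with rfl | hp
    · exact ⟨_, mem_powersetCard.mpr ⟨hsub1.trans hL1, by rw [card_ap hσ, hc0]⟩, hx1⟩
    · exact ⟨A0, mem_powersetCard.mpr ⟨(subset_insert _ _).trans hL1, hc0⟩, hp⟩
  · intro B hB
    have hB1 := mem_powersetCard.mp hB
    have h1 := ht B (fun z hz => hL z (toRight_subset_toRight hB1.1 hz)) hB1.2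
    by_contra h2
    push Not at h2
    have h3 := card_le_card (show insert (x + 4) (ess χ A0) ⊆ ess χ B from h2)
    rw [card_insert_of_notMem hnot] at h3
    omega

theorem noess {χ : Finset (K ⊕ ℕ) → β} {k l N : ℕ} (hI : Inv χ k N) (hS : Sep χ k l N)
    (hkl : k < l) (hN : 8 * k + 4 * l + 12 ≤ N) :
    ∀ A : Finset (K ⊕ ℕ), Lat N A → A.card = k → (ess χ A).card ≤ 0 := by
  have key : ∀ d t, t + d = k →
      ∀ A : Finset (K ⊕ ℕ), Lat N A → A.card = k → (ess χ A).card ≤ t := by
    intro d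
    induction d with
    | zero =>
      intro t ht A _ hc
      classical
      have : (ess χ A).card ≤ A.toRight.card := card_le_card (fun x hx => (mem_ess.mp hx).1)
      have h2 : A.toRight.card ≤ A.card := card_toRight_le
      omega
    | succ d ih =>
      intro t ht
      exact step hI hS hkl hN t (ih (t + 1) (by omega))
  exact key k 0 (by omega)

theorem core {χ : Finset (K ⊕ ℕ) → β} {k l N : ℕ} (hI : Inv χ k N) (hS : Sep χ k l N)
    (hkl : k < l) (hN : 8 * k + 4 * l + 12 ≤ N) :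
    ∀ (s : ℕ) (A : Finset (K ⊕ ℕ)), A.card = k → (∀ z ∈ A.toRight, z < l) →
      ∑ z ∈ A.toRight, z = s → χ A = χ (A.toLeft.disjSum (range (k - A.toLeft.card))) := by
  intro s
  induction s using Nat.strong_induction_on with
  | _ s ih =>
  intro A hc hl hs
  by_cases hex : ∃ y, y + 1 ∈ A.toRight ∧ y ∉ A.toRight
  · obtain ⟨y, hy1, hy2⟩ := hex
    let dn : ℕ → ℕ := fun z => if z = y + 1 then y else z
    have hdn : ∀ w ∈ A.toRight, ∀ z ∈ A.toRight, w < z → dn w < dn z := by
      intro w hw z hz hwz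
      have : w ≠ y := fun e => hy2 (e ▸ hw)
      simp only [dn]
      split_ifs <;> omega
    have hdl : ∀ z, dn z ≤ z := fun z => by simp only [dn]; split_ifs <;> omega
    have hlt : ∑ z ∈ (ap dn A).toRight, z < s := by
      rw [toRight_ap, sum_image (fun w hw z hz e => by
        rcases lt_trichotomy w z with h1 | h1 | h1
        · exact absurd e (hdn w hw z hz h1).ne
        · exact h1
        · exact absurd e (hdn z hz w hw h1).ne'), ← hs]
      exact sum_lt_sum (fun z _ => hdl z) ⟨y + 1, hy1, by simp [dn]⟩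
    have h1 := ih _ hlt (ap dn A) (by rw [card_ap hdn, hc]) (by
      intro z hz
      rw [toRight_ap] at hz
      obtain ⟨w, hw, rfl⟩ := mem_image.mp hz
      exact lt_of_le_of_lt (hdl w) (hl w hw)) rfl
    rw [toLeft_ap] at h1
    rw [← h1]
    let q : ℕ → ℕ := fun z => 4 * dn z
    have hq : ∀ w ∈ A.toRight, ∀ z ∈ A.toRight, w < z → q w < q z := by
      intro w hw z hz hwz
      have := hdn w hw z hz hwz
      simp only [q]; omega
    have hmem : ∀ z ∈ (ap q A).toRight, ∃ w ∈ A.toRight, z = 4 * dn w := by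
      intro z hz
      rw [toRight_ap] at hz
      obtain ⟨w, hw, rfl⟩ := mem_image.mp hz
      exact ⟨w, hw, rfl⟩
    have hL : Lat N (ap q A) := by
      intro z hz
      obtain ⟨w, hw, rfl⟩ := hmem z hz
      have := hdl w
      have := hl w hw
      omega
    have hcq : (ap q A).card = k := by rw [card_ap hq, hc]
    have hx : 4 * y ∈ (ap q A).toRight := by
      rw [toRight_ap]
      exact mem_image.mpr ⟨y + 1, hy1, by simp [q, dn]⟩
    have h2 : χ (ap (up (4 * y)) (ap q A)) = χ (ap q A) := by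
      by_contra h3
      have h4 := noess hI hS hkl hN _ hL hcq
      have h5 := card_pos.mpr ⟨_, mem_ess.mpr ⟨hx, h3⟩⟩
      omega
    have hy3 := hl _ hy1
    rw [transfer hI hL hcq.le hx (fun z => z / 4) (y + 1)
      (fun w hw z hz hwz => by
        have := hL w hw
        have := hL z hz
        show w / 4 < z / 4
        omega)
      (fun z hz => by
        have := hL z hz
        show z / 4 < N
        omega)
      (by show 4 * y / 4 < y + 1; omega) (by omega)
      (fun z hz hyz => by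
        obtain ⟨w, hw, rfl⟩ := hmem z hz
        show y + 1 < 4 * dn w / 4
        simp only [dn] at hyz ⊢
        split_ifs at hyz ⊢ <;> omega), ap_ap, ap_ap, ap_id] at h2
    · rw [h2]
      congr 1
      apply ap_congr
      intro z _
      show 4 * dn z / 4 = dn z
      omega
    · intro z hz
      have : z ≠ y := fun e => hy2 (e ▸ hz)
      simp only [Function.comp, q, dn]
      split_ifs <;> omega
  · push Not at hex
    congr 1
    refine ext_lr (by rw [toLeft_disjSum]) ?_
    rw [toRight_disjSum]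
    have h1 : A.toLeft.card + A.toRight.card = A.card := card_toLeft_add_card_toRight
    apply eq_of_subset_of_card_le _ (by rw [card_range]; omega)
    intro z hz
    have h2 : ∀ d w, w + d = z → w ∈ A.toRight := by
      intro d
      induction d with
      | zero => intro w hw; rw [show w = z by omega]; exact hz
      | succ d ih2 => intro w hw; exact hex w (ih2 (w + 1) (by omega))
    have h3 : range (z + 1) ⊆ A.toRight := fun w hw =>
      h2 (z - w) w (by have := mem_range.mp hw; omega)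
    have h4 := card_le_card h3
    rw [card_range] at h4
    exact mem_range.mpr (by omega)

end Pool.Agent.H.MP_52f1b6_co
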